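import Pool.Agent.Helper89.IX.SecQ
import Pool.Agent.Helper63.ZF.Lifts

/-!
# The kernel of the push-forward, one prime at a time (Helper89, localised transfer)
-/

set_option autoImplicit false

open MvPolynomial ZC

namespace ZF

universe u

section

variable {K : Type u} [Field K] {V ι R : Type} [Finite V] {p : V → ι}

theorem curveCycle_pow {E : Type u} [Field E] [Algebra K E] (hE : IsCurveField K E)
    (B : MVar K p R) (y : V → E) (hy : B.IsPt y) {g : E} (hg : g ≠ 0) (m : ℕ) :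
    curveCycle B y hy (g ^ m) = (m : ℤ) • curveCycle B y hy g := by
  induction m with
  | zero => rw [pow_zero, curveCycle_one, Nat.cast_zero, zero_smul]
  | succ m ih =>
    rw [pow_succ, curveCycle_mul hE B y hy (pow_ne_zero _ hg) hg, ih, Nat.cast_succ, add_smul,
      one_smul]

variable {n r : ℕ} {X : MVar K (addBlock n p) (Fin r ⊕ R)} {B : MVar K p R}

/-- At the prime `l` every function on a curve in `B` has a power with exponent prime to `l` whose
cycle lifts to a cycle on `X` which is rationally equivalent to zero. -/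
def LiftsAt (l : ℕ) (h : X.IsOver B) : Prop :=
  ∀ (E : Type u) [Field E] [Algebra K E], IsCurveField K E → ∀ (y : V → E) (hy : B.IsPt y)
    (g : E), g ≠ 0 → ∃ m : ℕ, m.Coprime l ∧ ∃ c ∈ ratEquiv X,
      pushZ h c = curveCycle B y hy (g ^ m)

theorem exists_mul_sec (h : LowQ X B) (hK : Good K) {l : ℕ} (hl : LiftsAt l h.isOver)
    {x : ClosedPoint B →₀ ℤ} (hx : x ∈ ratEquiv B) :
    ∃ m : ℕ, m.Coprime l ∧ (m : ℤ) • CH0.mk X (secZQ h hK x) = 0 := by
  refine AddSubgroup.closure_induction (p := fun x _ => ∃ m : ℕ, m.Coprime l ∧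
    (m : ℤ) • CH0.mk X (secZQ h hK x) = 0) ?_ ?_ ?_ ?_ hx
  · rintro c ⟨E, iF, iA, hE, y, hy, g, hg, rfl⟩
    obtain ⟨m, hm, c', hc', h1⟩ := hl E hE y hy g hg
    refine ⟨m, hm, ?_⟩
    have h2 := mk_sec_pushZQ h hK c'
    rw [h1, CH0.mk_eq_zero X hc', curveCycle_pow hE B y hy hg, map_zsmul, map_zsmul] at h2
    exact h2
  · exact ⟨1, Nat.coprime_one_left l, by rw [map_zero, map_zero, smul_zero]⟩
  · rintro a b _ _ ⟨m, hm, ha⟩ ⟨m', hm', hb⟩
    refine ⟨m * m', Nat.Coprime.mul_left hm hm', ?_⟩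
    rw [map_add, map_add, smul_add, Nat.cast_mul, mul_smul, mul_smul, hb, smul_zero, add_zero,
      smul_comm, ha, smul_zero]
  · rintro a _ ⟨m, hm, ha⟩
    exact ⟨m, hm, by rw [map_neg, map_neg, smul_neg, ha, neg_zero]⟩

/-- **The kernel of the push-forward has no `l`-torsion**: each element is killed by an integer
prime to `l`. -/
theorem ker_push (h : LowQ X B) (hK : Good K) {l : ℕ} (hl : LiftsAt l h.isOver) (c : CH0 X)
    (hc : CH0.push h.isOver c = 0) : ∃ m : ℕ, m.Coprime l ∧ m • c = 0 := by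
  obtain ⟨C, rfl⟩ := CH0.mk_surjective X c
  rw [CH0.push_mk] at hc
  have h1 : pushZ h.isOver C ∈ ratEquiv B := (QuotientAddGroup.eq_zero_iff _).1 hc
  obtain ⟨m, hm, h2⟩ := exists_mul_sec h hK hl h1
  rw [mk_sec_pushZQ, natCast_zsmul] at h2
  exact ⟨m, hm, h2⟩

/-- the push-forward is surjective in the Tsen-Lang range -/
theorem push_surjective (h : LowQ X B) (hK : Good K) :
    Function.Surjective (CH0.push h.isOver) := by
  intro c
  obtain ⟨C, rfl⟩ := CH0.mk_surjective B c
  exact ⟨CH0.mk X (secZQ h hK C), by rw [CH0.push_mk, pushZ_secZQ]⟩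

/-- **The push-forward is injective modulo `m`** if the prime factors of `m` are good. -/
theorem push_mod (h : LowQ X B) (hK : Good K) {m : ℕ}
    (hl : ∀ l : ℕ, l.Prime → l ∣ m → LiftsAt l h.isOver) (c : CH0 X)
    (hc : ∃ b, CH0.push h.isOver c = m • b) : ∃ c', c = m • c' := by
  obtain ⟨b, hb⟩ := hc
  obtain ⟨b', rfl⟩ := push_surjective h hK b
  set x := c - m • b' with hx
  have hx0 : CH0.push h.isOver x = 0 := by rw [hx, map_sub, map_nsmul, hb, sub_self]
  have hcop : (addOrderOf x).Coprime m := by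
    refine Nat.Coprime.symm (Nat.coprime_of_dvd fun l hlp hlm hlx => ?_)
    obtain ⟨M, hM, h1⟩ := ker_push h hK (hl l hlp hlm) x hx0
    have h2 : l ∣ M := hlx.trans (addOrderOf_dvd_of_nsmul_eq_zero h1)
    have h3 : l ∣ Nat.gcd M l := Nat.dvd_gcd h2 dvd_rfl
    rw [hM] at h3
    exact hlp.one_lt.ne' (Nat.dvd_one.1 h3)
  have h4 : IsCoprime ((addOrderOf x : ℕ) : ℤ) (m : ℤ) := Nat.isCoprime_iff_coprime.2 hcop
  obtain ⟨u, w, huw⟩ := h4
  refine ⟨b' + w • x, ?_⟩
  have h5 : x = (m : ℤ) • (w • x) := by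
    have h6 : (1 : ℤ) • x = (u * (addOrderOf x : ℕ) + w * m) • x := by rw [huw]
    rw [one_smul, add_smul, mul_smul, natCast_zsmul, addOrderOf_nsmul_eq_zero, smul_zero,
      zero_add] at h6
    rw [smul_smul, mul_comm]
    exact h6
  rw [smul_add, ← natCast_zsmul (w • x) m, ← h5, hx]
  abel

end

end ZF
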