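import Pool.Agent.Helper89.IX.LiftAtDef
import Pool.Agent.Helper89.IX.Kernel
import Pool.Agent.Helper72.FU.Split
import Pool.Agent.Helper72.FU.Sec
import Pool.Agent.Helper55.BD.OmegaNorm

/-!
# Powers of functions which lift (Helper89, localised transfer)
-/

set_option autoImplicit false

open ZC Pool.Agent.Helper91.ZC

namespace ZF

universe u

/-- **Norms for systems of forms of low degree** over a field with the costs of the prime `l`. -/
theorem NormSet.of_liftAt {E : Type u} [Field E] {l : ℕ} (hl : l.Prime) (hE : HasCost (cst l) E)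
    (hns : l = 2 → ∃ h : E, ¬ IsSquare h) {n r : ℕ} {d : Fin r → ℕ} (hd : ∀ i, 0 < d i)
    (hsq : ∑ i, d i ^ 2 ≤ n) (h : LiftAt l n d)
    (f : Fin r → MvPolynomial (Fin (n + 1)) E) (hf : ∀ i, (f i).IsHomogeneous (d i))
    {S : Set E} (hS : NormSet f S) (g : E) (hg : g ≠ 0) : g ∈ S := by
  have key : ∑ i, cst l (d i) ≤ n → g ∈ S := by
    intro h
    obtain ⟨x, hx0, hx⟩ := hE (Fin r) (Fin (n + 1)) f d hf hd
      (by rw [Fintype.card_fin]; exact Nat.lt_succ_of_le h)
    exact hS.of_point hx0 (fun i => by rw [MvPolynomial.aeval_eq_eval]; exact hx i) g hg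
  rcases h with h | ⟨i₀, h1, h2, h3⟩ | ⟨h1, h3⟩
  · exact key h
  · refine hS.of_splitC hE (cst_one l) (fun m hm => ?_) (fun m hm => ?_) (cst_zero l) d hd i₀ h1
      h2 h3 f hf g hg
    · exact le_trans (Nat.one_le_pow _ _ hm) (sq_le_cst hl m)
    · exact le_trans (by nlinarith) (sq_le_cst hl m)
  · by_cases h2 : l = 2
    · have h4 : 4 * r ≤ n := by
        have : ∑ i, d i ^ 2 = 4 * r := by
          rw [Finset.sum_congr rfl fun i _ => by rw [h1 i]]
          simp
          ring
        omega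
      exact hS.of_quads hE.hasC (hns h2) h4 h3 f (fun i => by rw [← h1 i]; exact hf i) g hg
    · refine key (le_trans (le_of_eq (Finset.sum_congr rfl fun i _ => ?_)) hsq)
      have h5 : ¬ l ∣ d i := by
        rw [h1 i]
        intro h6
        exact h2 ((Nat.prime_dvd_prime_iff_eq hl Nat.prime_two).1 h6)
      unfold cst
      rw [padicValNat.eq_zero_of_not_dvd h5, pow_zero, mul_one]

variable {K : Type u} [Field K] {V ι R : Type} [Finite V] {p : V → ι} {n r : ℕ}
  {X : MVar K (addBlock n p) (Fin r ⊕ R)} {B : MVar K p R}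

theorem liftsAt_of_hasSec (h : X.IsOver B) (hs : HasSec X B) (l : ℕ) : LiftsAt l h := by
  intro E _ _ hE y hy g hg
  obtain ⟨s, hs⟩ := hs
  have h2 := fib_isPt (hs E y hy)
  obtain ⟨-, c, hc, h1⟩ := (normSet_lifts h hE y hy).of_zero _ h2.1 h2.2 hg
  exact ⟨1, Nat.coprime_one_left l, c, hc, by rw [pow_one]; exact h1⟩

/-- **Lifting at one prime.** -/
theorem liftsAt_of (h : LowQ X B) (hK : Good K) {l : ℕ} (hl : l.Prime)
    (hc : LiftAt l n fun i => X.deg (Sum.inl i) none) : LiftsAt l h.isOver := by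
  intro E _ _ hE y hy g hg
  have h1 : WTLupI l 2 E := IsCurveField.wtlupI hl.pos (wtlupI_one.2 (hK.wtl l hl)) hE
  obtain ⟨Ω, _, _, hO, hW⟩ := h1
  obtain ⟨m, hm, -, c, hcc, h2⟩ := NormSet2.of_up hO (normSet2_lifts h.isOver hE y hy)
    (fun T hT t ht => NormSet.of_liftAt hl (hasCost_of_wtl hW) (fun h2 => by
      subst h2
      exact exists_nonsquare_up hO (exists_nonsquare hE)) h.pos h.sq hc _
      (fun i => ((fib X y).hom i).map _) hT t ht) g hg
  exact ⟨m, hm, c, hcc, h2⟩

end ZF
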