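import Pool.Agent.Helper15.ZF.FamDefs
import Pool.Agent.Helper72.FU.Deg3

/-!
# Families of zero-cycle classes with indices built from a set of prime numbers
(Helper89, localised transfer)
-/

set_option autoImplicit false

open MvPolynomial ZC

namespace ZF

universe u

/-- All prime factors of `m` belong to `Q`. -/
def Adm (Q : ℕ → Prop) (m : ℕ) : Prop :=
  ∀ l : ℕ, l.Prime → l ∣ m → Q l

theorem Adm.of_dvd {Q : ℕ → Prop} {m m' : ℕ} (h : Adm Q m') (hm : m ∣ m') : Adm Q m :=
  fun l hl hlm => h l hl (hlm.trans hm)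

section families

variable {F k : Type u} [Field F] [Field k] [Algebra F k] {V ι R : Type} [Finite V] {p : V → ι}

/-- Compatibility, for the indices all of whose prime factors belong to `Q`. -/
def LocFam.CompatOn (Q : ℕ → Prop) {X : MVar k p R} (z : LocFam F X) : Prop :=
  ∀ (v : Place F k) (m m' : ℕ), 0 < m → 0 < m' → m ∣ m' → Adm Q m' → SameMod m (z v m') (z v m)

/-- The family comes from `k`, for the indices all of whose prime factors belong to `Q`. -/
def LocFam.GlobalOn (Q : ℕ → Prop) {X : MVar k p R} (z : LocFam F X) : Prop :=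
  ∃ Z : ℕ → ClosedPoint X →₀ ℤ,
    (∀ m m' : ℕ, 0 < m → 0 < m' → m ∣ m' → Adm Q m' →
      SameMod m (CH0.mk X (Z m')) (CH0.mk X (Z m))) ∧
    ∀ (v : Place F k) (m : ℕ), 0 < m → Adm Q m →
      SameMod m (bcCl X v.Completion (Z m)) (z v m)

/-- The family is orthogonal to the constant Brauer classes, for the indices all of whose prime
factors belong to `Q`. -/
def LocFam.OrthOn (Q : ℕ → Prop) {X : MVar k p R} (z : LocFam F X) : Prop :=
  ∀ (f : k) (m : ℕ), f ≠ 0 → 0 < m → Adm Q m → ∑ᶠ v : Place F k, constPairing v (z v m) f m = 0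

end families

end ZF
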