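import Pool.Agent.Helper89.IX.Kernel
import Pool.Agent.Helper89.IX.FamOn
import Pool.Agent.Helper53.ZF.Recip

/-!
# Transfer of exactness, for the indices built from a set of prime numbers
(Helper89, localised transfer)
-/

set_option autoImplicit false

open MvPolynomial ZC

namespace ZF

universe u

variable {F k : Type u} [Field F] [Field k] [Algebra F k] {V ι R : Type} [Finite V] {p : V → ι}

theorem sameMod_push {K : Type u} [Field K] {n r : ℕ} {X : MVar K (addBlock n p) (Fin r ⊕ R)}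
    {B : MVar K p R} (h : LowQ X B) (hK : Good K) {m : ℕ}
    (hl : ∀ l : ℕ, l.Prime → l ∣ m → LiftsAt l h.isOver) {a b : CH0 X}
    (hab : SameMod m (CH0.push h.isOver a) (CH0.push h.isOver b)) : SameMod m a b := by
  obtain ⟨g, hg⟩ := hab
  exact push_mod h hK hl (a - b) ⟨g, by rw [map_sub, hg]⟩

section transfer

variable {n r : ℕ} {X : MVar k (addBlock n p) (Fin r ⊕ R)} {B : MVar k p R}

/-- The push-forward of a global family is global. -/
theorem LocFam.GlobalOn.push (h : X.IsOver B) {Q : ℕ → Prop} {z : LocFam F X}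
    (hz : z.GlobalOn Q) : (z.push h).GlobalOn Q := by
  obtain ⟨Z, hZ, hZz⟩ := hz
  refine ⟨fun m => pushZ h (Z m), ?_, fun v m hm hQ => ?_⟩
  · intro m m' hm hm' hmm hQ
    obtain ⟨g, hg⟩ := hZ m m' hm hm' hmm hQ
    refine ⟨CH0.push h g, ?_⟩
    rw [← map_nsmul, ← hg, map_sub, CH0.push_mk, CH0.push_mk]
  · obtain ⟨g, hg⟩ := hZz v m hm hQ
    refine ⟨CH0.push (h.bc v.Completion) g, ?_⟩
    rw [← map_nsmul, ← hg, map_sub, bcCl, bcCl, CH0.push_mk, bcZ_pushZ]
    rfl

/-- Families with global push-forward are global. -/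
theorem transferOn (h : LowQ X B) (hk : Good k) (hv : ∀ v : Place F k, Good v.Completion)
    {Q : ℕ → Prop} (hl : ∀ l : ℕ, l.Prime → Q l → LiftsAt l h.isOver)
    (hlv : ∀ (v : Place F k) (l : ℕ), l.Prime → Q l → LiftsAt l (h.bc v.Completion).isOver)
    (z : LocFam F X) (hz : (z.push h.isOver).GlobalOn Q) : z.GlobalOn Q := by
  obtain ⟨W, hW, hWz⟩ := hz
  refine ⟨fun m => secZQ h hk (W m), ?_, fun v m hm hQ => ?_⟩
  · intro m m' hm hm' hmm hQ
    refine sameMod_push h hk (fun l hlp hlm => hl l hlp (hQ l hlp (hlm.trans hmm))) ?_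
    rw [CH0.push_mk, CH0.push_mk, pushZ_secZQ, pushZ_secZQ]
    exact hW m m' hm hm' hmm hQ
  · refine sameMod_push (h.bc v.Completion) (hv v)
      (fun l hlp hlm => hlv v l hlp (hQ l hlp hlm)) ?_
    rw [bcCl, CH0.push_mk, pushZ_bcZ_secZQ]
    exact hWz v m hm hQ

/-- A family is global if and only if its push-forward is. -/
theorem transferOn_iff (h : LowQ X B) (hk : Good k) (hv : ∀ v : Place F k, Good v.Completion)
    {Q : ℕ → Prop} (hl : ∀ l : ℕ, l.Prime → Q l → LiftsAt l h.isOver)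
    (hlv : ∀ (v : Place F k) (l : ℕ), l.Prime → Q l → LiftsAt l (h.bc v.Completion).isOver)
    (z : LocFam F X) : z.GlobalOn Q ↔ (z.push h.isOver).GlobalOn Q :=
  ⟨fun hz => hz.push h.isOver, transferOn h hk hv hl hlv z⟩

theorem LocFam.CompatOn.push (h : X.IsOver B) {Q : ℕ → Prop} {z : LocFam F X}
    (hz : z.CompatOn Q) : (z.push h).CompatOn Q := by
  intro v m m' hm hm' hmm hQ
  obtain ⟨g, hg⟩ := hz v m m' hm hm' hmm hQ
  refine ⟨CH0.push (h.bc v.Completion) g, ?_⟩
  rw [← map_nsmul, ← hg, map_sub]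
  rfl

theorem LocFam.OrthOn.push (h : X.IsOver B) {Q : ℕ → Prop} {z : LocFam F X}
    (hz : z.OrthOn Q) : (z.push h).OrthOn Q := by
  intro f m hf hm hQ
  rw [← hz f m hf hm hQ]
  refine finsum_congr fun v => ?_
  rw [constPairing, constPairing, LocFam.push, pushCl, CH0.deg_push]

end transfer

/-- A global family is orthogonal to the constant classes. -/
theorem LocFam.GlobalOn.orth (hk : IsCurveField F k) {V ι R : Type} [Finite V] {p : V → ι}
    {X : MVar k p R} {Q : ℕ → Prop} {z : LocFam F X} (hz : z.GlobalOn Q) : z.OrthOn Q := by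
  intro f m hf hm hQ
  obtain ⟨Z, -, hZ⟩ := hz
  have h1 : ∀ v : Place F k, constPairing v (z v m) f m =
      ((degZ X (Z m) / m * ((v.ord f * v.deg : ℤ) : ℚ) : ℚ) : AddCircle (1 : ℚ)) := by
    intro v
    obtain ⟨g, hg⟩ := hZ v m hm hQ
    refine constPairing_eq v (z v m) f hm (g := CH0.deg _ g) ?_
    have h2 := congrArg (CH0.deg (X.bc v.Completion)) hg
    rw [map_sub, bcCl, CH0.deg_mk, degZ_bcZ, map_nsmul, nsmul_eq_mul] at h2
    exact h2
  rw [finsum_congr h1]
  have hfin := (sum_ord_deg hk f hf).1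
  have hsum := (sum_ord_deg hk f hf).2
  set φ : ℤ →+ AddCircle (1 : ℚ) := (QuotientAddGroup.mk' (AddSubgroup.zmultiples (1 : ℚ))).comp
    ((AddMonoidHom.mulLeft ((degZ X (Z m) : ℚ) / m)).comp (Int.castAddHom ℚ)) with hφ
  have h3 : ∀ v : Place F k, ((degZ X (Z m) / m * ((v.ord f * v.deg : ℤ) : ℚ) : ℚ) :
      AddCircle (1 : ℚ)) = φ (v.ord f * v.deg) := fun v => rfl
  rw [finsum_congr h3, ← AddMonoidHom.map_finsum φ, hsum, map_zero]
  refine hfin.subset fun v hv h0 => hv ?_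
  change v.ord f * (v.deg : ℤ) = 0
  rw [h0, zero_mul]

end ZF
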