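import Pool.Agent.Helper89.IX.FamOn
import Pool.Agent.Helper15.ZF.Tower

/-!
# The arithmetic part for indices built from a set of prime numbers
(Helper89, localised transfer)
-/

set_option autoImplicit false

open MvPolynomial ZC

namespace ZF

universe u

/-- the part of `D` composed of the prime factors of `m` -/
theorem exists_part (m : ℕ) (D : ℕ) : 0 < D →
    ∃ e D' : ℕ, D = e * D' ∧ (∀ l : ℕ, l.Prime → l ∣ e → l ∣ m) ∧ D'.Coprime m := by
  induction D using Nat.strong_induction_on with
  | _ D ih =>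
    intro hD
    by_cases h : D.Coprime m
    · exact ⟨1, D, (one_mul D).symm, fun l hl h1 => absurd (Nat.dvd_one.1 h1) hl.one_lt.ne', h⟩
    · have hg0 : 0 < D.gcd m := Nat.gcd_pos_of_pos_left m hD
      have hg1 : 1 < D.gcd m := lt_of_le_of_ne hg0 (Ne.symm h)
      obtain ⟨D1, hD1⟩ := Nat.gcd_dvd_left D m
      have hD1p : 0 < D1 := by
        rcases Nat.eq_zero_or_pos D1 with h0 | h0
        · rw [h0, mul_zero] at hD1
          omega
        · exact h0
      have hlt : D1 < D := by
        rw [hD1]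
        exact lt_mul_of_one_lt_left hD1p hg1
      obtain ⟨e, D', h1, h2, h3⟩ := ih D1 hlt hD1p
      refine ⟨D.gcd m * e, D', ?_, fun l hl hle => ?_, h3⟩
      · rw [mul_assoc, ← h1]
        exact hD1
      · rcases (Nat.Prime.dvd_mul hl).1 hle with h4 | h4
        · exact h4.trans (Nat.gcd_dvd_right D m)
        · exact h2 l hl h4

variable {F k : Type u} [Field F] [Field k] [Algebra F k]

theorem arithOn [Finite F] (hk : IsCurveField F k) {Q : ℕ → Prop} (c : Place F k → ℕ → ℤ)
    (hc : ∀ (v : Place F k) (m m' : ℕ), 0 < m → 0 < m' → m ∣ m' → Adm Q m' →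
      (m : ℤ) ∣ c v m' - c v m)
    (horth : ∀ (f : k) (m : ℕ), f ≠ 0 → 0 < m → Adm Q m →
      ∑ᶠ v : Place F k, ((c v m * (v.ord f * v.deg / m) : ℚ) : AddCircle (1 : ℚ)) = 0)
    (v w : Place F k) (m : ℕ) (hm : 0 < m) (hQ : Adm Q m) : (m : ℤ) ∣ c v m - c w m := by
  by_cases hvw : v = w
  · rw [hvw, sub_self]; exact dvd_zero _
  obtain ⟨h, f, hh, hf, hv, hw, hu⟩ := pic hk v w hvw
  have hdv := v.deg_pos hk
  have hdw := w.deg_pos hk
  have hD0 : 0 < h * w.deg * v.deg := by positivity
  obtain ⟨e, D', hD, he, hcop⟩ := exists_part m (h * w.deg * v.deg) hD0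
  have he0 : 0 < e := by
    rcases Nat.eq_zero_or_pos e with h0 | h0
    · rw [h0, zero_mul] at hD; omega
    · exact h0
  have hM : 0 < m * e := by positivity
  have hQM : Adm Q (m * e) := by
    intro l hl hlM
    rcases (Nat.Prime.dvd_mul hl).1 hlM with h4 | h4
    · exact hQ l hl h4
    · exact hQ l hl (he l hl h4)
  have h1 := horth f (m * e) hf hM hQM
  have h2 : (m : ℤ) ∣ c v (m * e) - c w (m * e) := by
    rw [finsum_two _ v w hvw] at h1
    · rw [← AddCircle.coe_add] at h1
      obtain ⟨b, hb⟩ := coe_addCircle_eq_zero h1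
      rw [hv, hw] at hb
      have hmq : (m : ℚ) ≠ 0 := by positivity
      have heq : (e : ℚ) ≠ 0 := by positivity
      have hDq : (h : ℚ) * w.deg * v.deg = e * D' := by
        have := congrArg (Nat.cast : ℕ → ℚ) hD
        push_cast at this
        exact this
      have h3 : ((c v (m * e) : ℚ) - c w (m * e)) * D' * e = m * b * e := by
        push_cast at hb
        field_simp at hb
        linear_combination hb - ((c v (m * e) : ℚ) - c w (m * e)) * hDq
      have h4 := mul_right_cancel₀ heq h3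
      have h5 : (c v (m * e) - c w (m * e)) * (D' : ℤ) = m * b := by exact_mod_cast h4
      have h6 : (m : ℤ) ∣ (c v (m * e) - c w (m * e)) * (D' : ℤ) := ⟨b, h5⟩
      exact (IsCoprime.dvd_of_dvd_mul_right (Nat.isCoprime_iff_coprime.2 hcop.symm) h6)
    · intro u huv huw
      rw [hu u huv huw]
      simp
  have ha := hc v m (m * e) hm hM (dvd_mul_right _ _) hQM
  have hb := hc w m (m * e) hm hM (dvd_mul_right _ _) hQM
  have h7 : c v m - c w m = (c v (m * e) - c w (m * e)) - (c v (m * e) - c v m) +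
      (c w (m * e) - c w m) := by ring
  rw [h7]
  exact dvd_add (dvd_sub h2 ha) hb

variable {V ι R : Type} [Finite V] {p : V → ι}

/-- Orthogonal families are global if the Chow groups of zero-cycles over the completions are
generated by the class of a global point. -/
theorem globalOn_of_gen [Finite F] (hk : IsCurveField F k)
    (X : MVar k p R) (x : V → k) (hx : X.IsPt x) {Q : ℕ → Prop}
    (hgen : ∀ (v : Place F k) (c : CH0 (X.bc v.Completion)), ∃ m : ℤ, c = m •
      CH0.mk (X.bc v.Completion) (Finsupp.single (closedPt (X.bc v.Completion) _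
        (isPt_map X v.Completion hx)) 1))
    (z : LocFam F X) (hz : z.CompatOn Q) (horth : z.OrthOn Q) : z.GlobalOn Q := by
  classical
  set P : ∀ v : Place F k, CH0 (X.bc v.Completion) := fun v =>
    CH0.mk (X.bc v.Completion) (Finsupp.single (closedPt (X.bc v.Completion) _
      (isPt_map X v.Completion hx)) 1) with hP
  have hP1 : ∀ v, CH0.deg _ (P v) = 1 := fun v => deg_rational _ _ _
  have hgen' : ∀ (v : Place F k) (c : CH0 (X.bc v.Completion)), c = CH0.deg _ c • P v := by
    intro v c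
    obtain ⟨m, rfl⟩ := hgen v c
    rw [map_zsmul, hP1, smul_eq_mul, mul_one]
  set c : Place F k → ℕ → ℤ := fun v m => CH0.deg _ (z v m) with hc
  have hcc : ∀ (v : Place F k) (m m' : ℕ), 0 < m → 0 < m' → m ∣ m' → Adm Q m' →
      (m : ℤ) ∣ c v m' - c v m := by
    intro v m m' hm hm' hmm hQ
    obtain ⟨g, hg⟩ := hz v m m' hm hm' hmm hQ
    exact ⟨CH0.deg _ g, by rw [hc]; simp only; rw [← map_sub, hg, map_nsmul, nsmul_eq_mul]⟩
  have key := arithOn hk c hcc horth
  obtain ⟨v₁, v₂, -⟩ := exists_two_places hk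
  refine ⟨fun m => c v₁ m • Finsupp.single (closedPt X x hx) 1, ?_, fun v m hm hQ => ?_⟩
  · intro m m' hm hm' hmm hQ
    obtain ⟨g, hg⟩ := hcc v₁ m m' hm hm' hmm hQ
    refine ⟨CH0.mk X (g • Finsupp.single (closedPt X x hx) 1), ?_⟩
    rw [← map_sub, ← map_nsmul]
    congr 1
    change c v₁ m' • Finsupp.single (closedPt X x hx) 1 -
      c v₁ m • Finsupp.single (closedPt X x hx) 1 = _
    rw [sub_eq_add_neg, ← sub_zsmul, hg, mul_zsmul, natCast_zsmul]
  · obtain ⟨e, he⟩ := key v₁ v m hm hQ
    refine ⟨e • P v, ?_⟩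
    conv_lhs => rw [hgen' v (z v m)]
    rw [bcCl, map_zsmul, bcZ_rational, map_zsmul]
    change c v₁ m • P v - c v m • P v = _
    rw [sub_eq_add_neg, ← sub_zsmul, he, mul_zsmul, natCast_zsmul]

end ZF
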