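import Pool.Agent.Helper89.IX.TowerDef
import Pool.Agent.Helper89.IX.Transfer
import Pool.Agent.Helper89.IX.ArithOn
import Pool.Agent.Helper89.IX.LiftAt

/-!
# Families and towers: the theorem, prime by prime (Helper89, localised transfer)
-/

set_option autoImplicit false

open MvPolynomial ZC

namespace ZF

universe u

section

variable {K : Type u} [Field K] {V ι R : Type} [Finite V] {p : V → ι} {n r : ℕ}
  {X : MVar K (addBlock n p) (Fin r ⊕ R)} {B : MVar K p R} {Q : ℕ → Prop}

omit [Finite V] in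
theorem FamAt.lowQ (h : FamAt Q X B) : LowQ X B := ⟨h.isOver, h.pos, h.sq⟩

omit [Finite V] in
theorem FamAt.bc (h : FamAt Q X B) (L : Type u) [Field L] [Algebra K L] :
    FamAt Q (X.bc L) (B.bc L) :=
  ⟨h.isOver.bc L, h.pos, h.sq, h.lift.imp id fun h => h.bc L⟩

theorem FamAt.liftsAt (h : FamAt Q X B) (hK : Good K) (l : ℕ) (hl : l.Prime) (hQ : Q l) :
    LiftsAt l h.isOver := by
  rcases h.lift with h1 | h1
  · exact liftsAt_of h.lowQ hK hl (h1 l hl hQ)
  · exact liftsAt_of_hasSec h.isOver h1 l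

theorem FamAt.pushIsoAt (h : FamAt Q X B) (hK : Good K) : PushIsoAt Q h.isOver :=
  ⟨push_surjective h.lowQ hK, fun _ _ hm _ _ hcc =>
    sameMod_push h.lowQ hK (fun l hl hlm => h.liftsAt hK l hl (hm l hl hlm)) hcc⟩

/-- If all prime numbers satisfy `Q` the push-forward is an isomorphism. -/
theorem FamAt.pushIso (h : FamAt Q X B) (hK : Good K) (hQ : ∀ l : ℕ, l.Prime → Q l) :
    PushIso h.isOver := by
  refine ⟨?_, push_surjective h.lowQ hK⟩
  rw [injective_iff_map_eq_zero]
  intro c hc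
  have h1 : addOrderOf c = 1 := by
    by_contra hne
    obtain ⟨l, hl, hlc⟩ := Nat.exists_prime_and_dvd hne
    obtain ⟨m, hm, h2⟩ := ker_push h.lowQ hK (h.liftsAt hK l hl (hQ l hl)) c hc
    have h3 : l ∣ m := hlc.trans (addOrderOf_dvd_of_nsmul_eq_zero h2)
    have h4 : l ∣ Nat.gcd m l := Nat.dvd_gcd h3 dvd_rfl
    rw [hm] at h4
    exact hl.one_lt.ne' (Nat.dvd_one.1 h4)
  exact AddMonoid.addOrderOf_eq_one_iff.1 h1

end

variable {F k : Type u} [Field F] [Field k] [Algebra F k] {V ι R : Type} {p : V → ι}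

theorem towerAt_exact [Finite F] (hk : IsCurveField F k) {Q : ℕ → Prop}
    {X : MVar k p R} (hX : TowerAt Q X) : ∀ [Finite V] (z : LocFam F X), z.CompatOn Q →
      z.OrthOn Q → z.GlobalOn Q := by
  induction hX with
  | point X =>
    intro _ z hz horth
    have hx : X.IsPt (fun e => e.elim : Empty → k) := ⟨fun j => j.elim, fun i => i.elim⟩
    exact globalOn_of_gen hk X _ hx (fun v c => point_gen (X.bc v.Completion) _ _ c) z hz horth
  | @step V ι R p n r B X hB h ih =>
    intro hfin z hz horth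
    have hV : Finite V := Finite.of_injective (Sum.inr : V → Fin (n + 1) ⊕ V) Sum.inr_injective
    exact transferOn h.lowQ hk.good (fun v => v.good hk) (h.liftsAt hk.good)
      (fun v => (h.bc v.Completion).liftsAt (v.good hk)) z
      (ih _ (hz.push h.isOver) (horth.push h.isOver))

/-- **The theorem.** -/
theorem famAt_main [Finite F] (hk : IsCurveField F k) [Finite V] {n r : ℕ} (B : MVar k p R)
    (X : MVar k (addBlock n p) (Fin r ⊕ R)) (Q : ℕ → Prop) (h : FamAt Q X B) :
    PushIsoAt Q h.isOver ∧ (∀ v : Place F k, PushIsoAt Q (h.isOver.bc v.Completion)) ∧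
    (∀ z : LocFam F X, z.GlobalOn Q ↔ (z.push h.isOver).GlobalOn Q) ∧
    (TowerAt Q B → ∀ z : LocFam F X, z.CompatOn Q → (z.GlobalOn Q ↔ z.OrthOn Q)) ∧
    ((∀ l : ℕ, l.Prime → Q l) →
      PushIso h.isOver ∧ ∀ v : Place F k, PushIso (h.isOver.bc v.Completion)) :=
  ⟨h.pushIsoAt hk.good, fun v => (h.bc v.Completion).pushIsoAt (v.good hk),
    transferOn_iff h.lowQ hk.good (fun v => v.good hk) (h.liftsAt hk.good)
      (fun v => (h.bc v.Completion).liftsAt (v.good hk)),
    fun hB z hz => ⟨fun hg => hg.orth hk, towerAt_exact hk (TowerAt.step hB h) z hz⟩,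
    fun hQ => ⟨h.pushIso hk.good hQ, fun v => (h.bc v.Completion).pushIso (v.good hk) hQ⟩⟩

end ZF
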