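import Pool.Agent.Helper72.FU.Deg3

/-! # The condition on the degrees at one prime (Helper89, localised transfer) -/

set_option autoImplicit false

namespace ZF

/-- The condition at the prime `l` on the degrees `d i` of `r` forms in `n + 1` variables with
`∑ (d i) ^ 2 ≤ n` under which every function on a curve over a function field of one variable over
a finite field has a power, with an exponent prime to `l`, which is a product of norms from fields
over which the forms have a common zero. -/
def LiftAt (l n : ℕ) {r : ℕ} (d : Fin r → ℕ) : Prop :=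
  ∑ i, cst l (d i) ≤ n ∨
  (∃ i, 2 ≤ d i ∧ cst l (d i) + 2 * ∑ j ∈ Finset.univ.erase i, cst l (d j) ≤ 2 * n + 1 ∧
    ∑ j ∈ Finset.univ.erase i, (cst l (d j) + 2 * ∑ k ∈ Finset.range (d j), cst l k) ≤ n) ∨
  (∀ i, d i = 2) ∧ 10 * r ≤ n + 18

end ZF
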