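import Pool.Agent.Helper89.IX.FamOn
import Pool.Agent.Helper89.IX.LiftAtDef
import Pool.Agent.Helper72.FU.Fam

/-!
# Families of intersections of hypersurfaces in the Tsen-Lang range: the definitions
(Helper89, localised transfer)
-/

set_option autoImplicit false

open MvPolynomial ZC

namespace ZF

universe u

section

variable {K : Type u} [Field K] {V ι R : Type} {p : V → ι} {n r : ℕ}

/-- The hypotheses on a family `X` over `B` of intersections of hypersurfaces: the fibres are in
the Tsen-Lang range, and at the primes which satisfy `Q` the degrees satisfy the condition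
`LiftAt`, or `X` has a section over `B` given by polynomials. -/
structure FamAt (Q : ℕ → Prop) (X : MVar K (addBlock n p) (Fin r ⊕ R)) (B : MVar K p R) :
    Prop where
  isOver : X.IsOver B
  pos : ∀ i, 0 < X.deg (Sum.inl i) none
  sq : ∑ i, X.deg (Sum.inl i) none ^ 2 ≤ n
  lift : (∀ l : ℕ, l.Prime → Q l → LiftAt l n fun i => X.deg (Sum.inl i) none) ∨ HasSec X B

/-- `X` is obtained from the point by finitely many steps which replace a variety `B` by a family
over `B` of intersections of hypersurfaces. -/
inductive TowerAt (Q : ℕ → Prop) {K : Type u} [Field K] :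
    ∀ {V ι R : Type} {p : V → ι}, MVar K p R → Prop
  | point (X : MVar K (id : Empty → Empty) Empty) : TowerAt Q X
  | step {V ι R : Type} {p : V → ι} {n r : ℕ} {B : MVar K p R}
      {X : MVar K (addBlock n p) (Fin r ⊕ R)} (hB : TowerAt Q B) (h : FamAt Q X B) : TowerAt Q X

end

section

variable {K : Type u} [Field K] {V ι R : Type} [Finite V] {p : V → ι} {n r : ℕ}
  {X : MVar K (addBlock n p) (Fin r ⊕ R)} {B : MVar K p R}

/-- The push-forward from `X` to `B` is surjective on Chow groups of zero-cycles, and bijective
modulo every positive integer all of whose prime factors satisfy `Q`. -/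
def PushIsoAt (Q : ℕ → Prop) (h : X.IsOver B) : Prop :=
  (∀ b : CH0 B, ∃ c : CH0 X, pushCl h c = b) ∧
    ∀ m : ℕ, 0 < m → Adm Q m → ∀ c c' : CH0 X,
      SameMod m (pushCl h c) (pushCl h c') → SameMod m c c'

end

end ZF
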