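import Pool.Agent.Helper89.IX.Lift

/-!
# The index of families of intersections of hypersurfaces (Helper89)
-/

set_option autoImplicit false

open MvPolynomial ZC

namespace ZF

universe u

/-- The Tsen-Lang inequality at the prime `l`: the sum of the products of the degrees with their
`l`-parts is at most `n`. -/
def LowAt (l n : ℕ) {r : ℕ} (d : Fin r → ℕ) : Prop :=
  ∑ i, d i * l ^ padicValNat l (d i) ≤ n

section

variable {K : Type u} [Field K] {V ι R : Type} [Finite V] {p : V → ι} {n r : ℕ}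
  {X : MVar K (addBlock n p) (Fin r ⊕ R)} {B : MVar K p R}

/-- Every zero-cycle class of `B` has a multiple, by an integer prime to `l`, which is the
push-forward of a zero-cycle class of `X`. -/
def OntoAt (l : ℕ) (h : X.IsOver B) : Prop :=
  ∀ b : CH0 B, ∃ m : ℕ, m.Coprime l ∧ ∃ c : CH0 X, pushCl h c = m • b

/-- Every zero-cycle class of `B` is the push-forward of a zero-cycle class of `X`. -/
def Onto (h : X.IsOver B) : Prop :=
  ∀ b : CH0 B, ∃ c : CH0 X, pushCl h c = b

/-- `X` has a zero-cycle class of degree `e`. -/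
def HasDeg {V ι R : Type} [Finite V] {p : V → ι} (X : MVar K p R) (e : ℤ) : Prop :=
  ∃ c : CH0 X, CH0.deg X c = e

theorem Onto.hasDeg {h : X.IsOver B} (ho : Onto h) (e : ℤ) : HasDeg X e ↔ HasDeg B e := by
  constructor
  · rintro ⟨c, hc⟩
    exact ⟨pushCl h c, by rw [← hc, pushCl, CH0.deg_push]⟩
  · rintro ⟨b, hb⟩
    obtain ⟨c, hc⟩ := ho b
    exact ⟨c, by rw [← hb, ← hc, pushCl, CH0.deg_push]⟩

end

theorem index_main {F k : Type u} [Field F] [Finite F] [Field k] [Algebra F k]
    (hk : IsCurveField F k) {V ι R : Type} [Finite V] {p : V → ι} {n r : ℕ}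
    (B : MVar k p R) (X : MVar k (addBlock n p) (Fin r ⊕ R)) (h : X.IsOver B)
    (hd : ∀ i, 0 < X.deg (Sum.inl i) none) :
    (∀ l : ℕ, l.Prime → LowAt l n (fun i => X.deg (Sum.inl i) none) →
      OntoAt l h ∧ ∀ v : Place F k, OntoAt l (h.bc v.Completion)) ∧
    ((∀ l : ℕ, l.Prime → LowAt l n (fun i => X.deg (Sum.inl i) none)) →
      Onto h ∧ (∀ v : Place F k, Onto (h.bc v.Completion)) ∧ ∀ e : ℤ, HasDeg X e ↔ HasDeg B e) := by
  refine ⟨fun l hl hn => ⟨exists_push_mul h (hk.wtlup' hl) hd hn, fun v =>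
    exists_push_mul (h.bc v.Completion) (Place.wtlup hk v hl) hd hn⟩, fun hn => ?_⟩
  have h1 : Onto h := push_surjective_of_local h (fun l hl => hk.wtlup' hl) hd hn
  exact ⟨h1, fun v => push_surjective_of_local (h.bc v.Completion)
    (fun l hl => Place.wtlup hk v hl) hd hn, h1.hasDeg⟩

end ZF
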