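import Pool.Agent.Helper15.ZF.FamDefs
import Pool.Agent.Helper55.BD.Up
import Pool.Agent.Helper99.BD.Final

/-!
# Zero-cycles on families of intersections of hypersurfaces, up to a multiple prime to `l`
(Helper89, index)
-/

set_option autoImplicit false

open MvPolynomial ZC

namespace ZF

universe u

theorem ptCycle_extend {K : Type u} [Field K] {V ι R : Type} {p : V → ι} (X : MVar K p R)
    {L L' : Type*} [Field L] [Algebra K L]
    [Field L'] [Algebra K L'] [Algebra L L'] [IsScalarTower K L L'] [FiniteDimensional K L]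
    [FiniteDimensional K L'] {x : V → L} (hx : X.IsPt x)
    (hy : X.IsPt fun v => algebraMap L L' (x v)) :
    ptCycle X (fun v => algebraMap L L' (x v)) hy =
      (Module.finrank L L' : ℤ) • ptCycle X x hx := by
  have h := ptCycle_tower X (IsScalarTower.toAlgHom K L L') hx hy
  have e : (IsScalarTower.toAlgHom K L L').toRingHom.toAlgebra = (inferInstance : Algebra L L') :=
    Algebra.algebra_ext _ _ fun _ => rfl
  rw [e] at h
  exact h

variable {K : Type u} [Field K] {V ι R : Type} [Finite V] {p : V → ι} {n r : ℕ}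
  {X : MVar K (addBlock n p) (Fin r ⊕ R)} {B : MVar K p R}

/-- **A multiple prime to `l` of a closed point of the base is the push-forward of a zero-cycle.** -/
theorem exists_pushZ_single (h : X.IsOver B) {l : ℕ} (hK : WTLup l K)
    (hd : ∀ i, 0 < X.deg (Sum.inl i) none)
    (hn : ∑ i, X.deg (Sum.inl i) none * l ^ padicValNat l (X.deg (Sum.inl i) none) ≤ n)
    (b : ClosedPoint B) :
    ∃ m : ℕ, m.Coprime l ∧ ∃ c : ClosedPoint X →₀ ℤ,
      pushZ h c = (m : ℤ) • Finsupp.single b 1 := by
  have hfd := coordField_finite (p := p) b.out.1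
  set L := coordField K p b.out.1 with hL
  set y : V → L := nrm b.out with hy
  have hyB : B.IsPt y := nrm_isPt b.out
  have hLw : WTLupI l 1 L := (wtlupI_one.2 hK).of_finite
  obtain ⟨M, _, _, hfin, -, hcop, x, hx0, hx⟩ := hLw.exists_zero (n := n) (fib X y).d hd
    (by simp only [pow_one]; exact hn) (fib X y).form (fib X y).hom
  let _ : Algebra K M := ((algebraMap L M).comp (algebraMap K L)).toAlgebra
  have htow : IsScalarTower K L M := IsScalarTower.of_algebraMap_eq fun a => rfl
  have : FiniteDimensional K M := FiniteDimensional.trans K L M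
  have hX : X.IsPt (Sum.elim x fun v => algebraMap L M (y v)) :=
    isPt_of_fib h y hyB x ⟨hx0, hx⟩
  refine ⟨Module.finrank L M, hcop, ptCycle X _ hX, ?_⟩
  rw [pushZ_ptCycle]
  have h1 := ptCycle_extend B (L' := M) hyB (h.isPt hX)
  have h2 : (ptCycle B y hyB) = Finsupp.single b 1 := single_out b
  rw [h2] at h1
  exact h1

/-- the multiples of `c` which are push-forwards -/
noncomputable def mulSub (h : X.IsOver B) (c : CH0 B) : AddSubgroup ℤ :=
  (CH0.push h).range.comap (zmultiplesHom (CH0 B) c)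

theorem mem_mulSub (h : X.IsOver B) (c : CH0 B) (m : ℤ) :
    m ∈ mulSub h c ↔ ∃ z, CH0.push h z = m • c := Iff.rfl

/-- **One prime**: a multiple prime to `l` of every zero-cycle class of the base is a
push-forward. -/
theorem exists_push_mul (h : X.IsOver B) {l : ℕ} (hK : WTLup l K)
    (hd : ∀ i, 0 < X.deg (Sum.inl i) none)
    (hn : ∑ i, X.deg (Sum.inl i) none * l ^ padicValNat l (X.deg (Sum.inl i) none) ≤ n)
    (c : CH0 B) : ∃ m : ℕ, m.Coprime l ∧ ∃ z, CH0.push h z = m • c := by
  obtain ⟨c, rfl⟩ := CH0.mk_surjective B c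
  induction c using Finsupp.induction_linear with
  | zero => exact ⟨1, Nat.coprime_one_left l, 0, by simp⟩
  | add f g hf hg =>
    obtain ⟨m, hm, z, hz⟩ := hf
    obtain ⟨m', hm', z', hz'⟩ := hg
    refine ⟨m * m', Nat.Coprime.mul_left hm hm', m' • z + m • z', ?_⟩
    rw [map_add, map_nsmul, map_nsmul, hz, hz', map_add, smul_add, smul_smul, smul_smul,
      mul_comm m m']
  | single P a =>
    obtain ⟨m, hm, c, hc⟩ := exists_pushZ_single h hK hd hn P
    refine ⟨m, hm, a • CH0.mk X c, ?_⟩
    have h1 : Finsupp.single P a = a • Finsupp.single P (1 : ℤ) := by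
      rw [Finsupp.smul_single, smul_eq_mul, mul_one]
    rw [map_zsmul, CH0.push_mk, hc, h1, map_zsmul, map_zsmul, ← natCast_zsmul, smul_comm]

/-- **All primes**: the push-forward is surjective. -/
theorem push_surjective_of_local (h : X.IsOver B) (hK : ∀ l : ℕ, l.Prime → WTLup l K)
    (hd : ∀ i, 0 < X.deg (Sum.inl i) none)
    (hn : ∀ l : ℕ, l.Prime →
      ∑ i, X.deg (Sum.inl i) none * l ^ padicValNat l (X.deg (Sum.inl i) none) ≤ n) :
    Function.Surjective (CH0.push h) := by
  intro c
  obtain ⟨d, hd'⟩ := Int.subgroup_cyclic (mulSub h c)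
  rw [← AddSubgroup.zmultiples_eq_closure] at hd'
  have hunit : d.natAbs = 1 := by
    by_contra hne
    obtain ⟨l, hl, hld⟩ := Nat.exists_prime_and_dvd hne
    obtain ⟨m, hml, z, hz⟩ := exists_push_mul h (hK l hl) hd (hn l hl) c
    have h2 : (m : ℤ) ∈ mulSub h c := (mem_mulSub h c m).2 ⟨z, by rw [hz, natCast_zsmul]⟩
    rw [hd', Int.mem_zmultiples_iff] at h2
    have h3 : l ∣ m := hld.trans (by
      have h4 := Int.natAbs_dvd_natAbs.2 h2
      simpa using h4)
    have h5 : l ∣ Nat.gcd m l := Nat.dvd_gcd h3 dvd_rfl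
    rw [hml] at h5
    exact hl.one_lt.ne' (Nat.dvd_one.1 h5)
  have h6 : (1 : ℤ) ∈ mulSub h c := by
    rw [hd', Int.mem_zmultiples_iff]
    exact Int.natAbs_dvd.1 (by rw [hunit]; exact one_dvd _)
  obtain ⟨z, hz⟩ := (mem_mulSub h c 1).1 h6
  exact ⟨z, by rw [hz, one_zsmul]⟩

end ZF
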