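import Pool.Agent.Helper72.FU.Good
import Pool.Agent.Helper55.BD.Sec
import Pool.Agent.Helper15.ZF.BC
import Pool.Agent.Helper89.IX.Lift

/-!
# Families of intersections in the Tsen-Lang range: sections on zero-cycles, and the kernel of the
push-forward one prime at a time (Helper89, localised transfer)
-/

set_option autoImplicit false

open MvPolynomial ZC

namespace ZF

universe u

/-- The hypotheses on a family of intersections of hypersurfaces in the Tsen-Lang range. -/
structure LowQ {K : Type u} [Field K] {V ι R : Type} {p : V → ι} {n r : ℕ}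
    (X : MVar K (addBlock n p) (Fin r ⊕ R)) (B : MVar K p R) : Prop where
  isOver : X.IsOver B
  pos : ∀ i, 0 < X.deg (Sum.inl i) none
  sq : ∑ i, X.deg (Sum.inl i) none ^ 2 ≤ n

theorem LowQ.bc {K : Type u} [Field K] {V ι R : Type} {p : V → ι} {n r : ℕ}
    {X : MVar K (addBlock n p) (Fin r ⊕ R)} {B : MVar K p R} (h : LowQ X B) (L : Type u)
    [Field L] [Algebra K L] : LowQ (X.bc L) (B.bc L) :=
  ⟨h.isOver.bc L, h.pos, h.sq⟩

section sec

variable {K : Type u} [Field K] {V ι R : Type} [Finite V] {p : V → ι} {n r : ℕ}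
  {X : MVar K (addBlock n p) (Fin r ⊕ R)} {B : MVar K p R}

theorem exists_secQ (h : LowQ X B) (hK : Good K) (y : GPt B) :
    ∃ x : Fin (n + 1) → coordField K p y.1, X.IsPt (Sum.elim x (nrm y)) := by
  have := coordField_finite (p := p) y.1
  exact exists_lift h.isOver (q := 2) (hasC_two hK.c2.finite) h.pos h.sq _
    (nrm_isPt y)

/-- The section of the push-forward on closed points. -/
noncomputable def secPtQ (h : LowQ X B) (hK : Good K) (b : ClosedPoint B) : ClosedPoint X →₀ ℤ :=
  ptCycle X (Sum.elim (exists_secQ h hK b.out).choose (nrm b.out))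
    (exists_secQ h hK b.out).choose_spec

/-- The section of the push-forward on zero-cycles. -/
noncomputable def secZQ (h : LowQ X B) (hK : Good K) :
    (ClosedPoint B →₀ ℤ) →+ (ClosedPoint X →₀ ℤ) :=
  linExt (secPtQ h hK)

theorem secZQ_single (h : LowQ X B) (hK : Good K) (b : ClosedPoint B) :
    secZQ h hK (Finsupp.single b 1) = secPtQ h hK b := by
  rw [secZQ, linExt_single, one_smul]

theorem pushZ_secPtQ (h : LowQ X B) (hK : Good K) (b : ClosedPoint B) :
    pushZ h.isOver (secPtQ h hK b) = Finsupp.single b 1 := by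
  have := coordField_finite (p := p) b.out.1
  rw [secPtQ, pushZ_ptCycle]
  exact single_out b

theorem pushZ_secZQ (h : LowQ X B) (hK : Good K) (c : ClosedPoint B →₀ ℤ) :
    pushZ h.isOver (secZQ h hK c) = c := by
  induction c using Finsupp.induction_linear with
  | zero => rw [map_zero, map_zero]
  | add f g hf hg => rw [map_add, map_add, hf, hg]
  | single P a =>
    have : Finsupp.single P a = a • Finsupp.single P (1 : ℤ) := by
      rw [Finsupp.smul_single, smul_eq_mul, mul_one]
    rw [this, map_zsmul, map_zsmul, secZQ_single, pushZ_secPtQ]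

/-- Every point of `X` is rationally equivalent to the section of its image. -/
theorem sec_equivQ (h : LowQ X B) (hK : Good K) {L : Type u} [Field L] [Algebra K L]
    [FiniteDimensional K L] (q : Fin (n + 1) ⊕ V → L) (hq : X.IsPt q) :
    ptCycle X q hq - secZQ h hK (ptCycle B (fun v => q (Sum.inr v)) (h.isOver.isPt hq)) ∈
      ratEquiv X := by
  set y : V → L := fun v => q (Sum.inr v) with hy
  have hyB : B.IsPt y := h.isOver.isPt hq
  set b : ClosedPoint B := closedPt B y hyB with hb
  obtain ⟨τ, c, hc, hτ⟩ := exists_emb B y hyB b.out (Quotient.out_eq b).symm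
  have hfd := coordField_finite (p := p) b.out.1
  set xb := (exists_secQ h hK b.out).choose with hxb
  have hxb' : X.IsPt (Sum.elim xb (nrm b.out)) := (exists_secQ h hK b.out).choose_spec
  have h1 : X.IsPt fun v => τ (Sum.elim xb (nrm b.out) v) := isPt_comp X τ hxb'
  let c' : Option ι → L := fun j => Option.elim j 1 c
  have hc' : ∀ j, c' j ≠ 0 := by
    rintro (_ | j)
    · exact one_ne_zero
    · exact hc j
  have h2 : ∀ v, (Sum.elim (fun a => τ (xb a)) y : Fin (n + 1) ⊕ V → L) v =
      c' (addBlock n p v) * τ (Sum.elim xb (nrm b.out) v) := by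
    rintro (a | v)
    · exact (one_mul _).symm
    · exact hτ v
  have h3 : X.IsPt (Sum.elim (fun a => τ (xb a)) y) := isPt_scale X c' hc' h1 h2
  have hq' : q = Sum.elim (fun a => q (Sum.inl a)) y := by
    funext v
    rcases v with a | v <;> rfl
  have hq2 : X.IsPt (Sum.elim (fun a => q (Sum.inl a)) y) := hq' ▸ hq
  have e1 := fibre_equiv2 hK h.isOver h.pos h.sq (fun a => q (Sum.inl a))
    (fun a => τ (xb a)) y hq2 h3
  have e2 : ptCycle X (Sum.elim (fun a => τ (xb a)) y) h3 =
      ptCycle X (fun v => τ (Sum.elim xb (nrm b.out) v)) h1 :=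
    (ptCycle_congr X AlgEquiv.refl c' hc' h1 h3 h2).symm
  have e3 := ptCycle_tower X τ hxb' h1
  have e4 : ptCycle B y hyB = ptCycle B (fun v => τ (nrm b.out v))
      (isPt_comp B τ (nrm_isPt b.out)) :=
    (ptCycle_congr B AlgEquiv.refl c hc _ _ hτ).symm
  have e5 := ptCycle_tower B τ (nrm_isPt b.out) (isPt_comp B τ (nrm_isPt b.out))
  rw [single_out] at e5
  have e6 : secZQ h hK (ptCycle B y hyB) = ptCycle X (Sum.elim (fun a => τ (xb a)) y) h3 := by
    rw [e4, e5, map_zsmul, secZQ_single, e2, e3]
    rfl
  rw [e6, ptCycle_of_eq X hq hq2 hq']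
  exact e1

theorem mk_secQ (h : LowQ X B) (hK : Good K) {L : Type u} [Field L] [Algebra K L]
    [FiniteDimensional K L] (q : Fin (n + 1) ⊕ V → L) (hq : X.IsPt q) :
    CH0.mk X (secZQ h hK (ptCycle B (fun v => q (Sum.inr v)) (h.isOver.isPt hq))) =
      CH0.mk X (ptCycle X q hq) := by
  have := CH0.mk_eq_zero X (sec_equivQ h hK q hq)
  rw [map_sub, sub_eq_zero] at this
  exact this.symm

/-- Every zero-cycle is rationally equivalent to the section of its push-forward. -/
theorem mk_sec_pushZQ (h : LowQ X B) (hK : Good K) (c : ClosedPoint X →₀ ℤ) :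
    CH0.mk X (secZQ h hK (pushZ h.isOver c)) = CH0.mk X c := by
  induction c using Finsupp.induction_linear with
  | zero => rw [map_zero, map_zero]
  | add f g hf hg => rw [map_add, map_add, map_add, hf, hg, map_add]
  | single P a =>
    have h1 : Finsupp.single P a = a • Finsupp.single P (1 : ℤ) := by
      rw [Finsupp.smul_single, smul_eq_mul, mul_one]
    have := coordField_finite (p := addBlock n p) P.out.1
    rw [h1, map_zsmul, map_zsmul, map_zsmul, map_zsmul, ← single_out P, pushZ_ptCycle, mk_secQ]

theorem pushZ_bcZ_secZQ (h : LowQ X B) (hK : Good K) (K' : Type u) [Field K'] [Algebra K K']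
    (c : ClosedPoint B →₀ ℤ) :
    pushZ (h.isOver.bc K') (bcZ X K' (secZQ h hK c)) = bcZ B K' c := by
  induction c using Finsupp.induction_linear with
  | zero => simp only [map_zero]
  | add f g hf hg => rw [map_add, map_add, map_add, hf, hg, map_add]
  | single b a =>
    have h1 : Finsupp.single b a = a • Finsupp.single b (1 : ℤ) := by
      rw [Finsupp.smul_single, smul_eq_mul, mul_one]
    have hfd := coordField_finite (p := p) b.out.1
    have htop : coordField K (addBlock n p)
        (Sum.elim (exists_secQ h hK b.out).choose (nrm b.out)) = ⊤ := by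
      rw [eq_top_iff, ← coordField_nrm b.out]
      exact coordField_le (Sum.elim (exists_secQ h hK b.out).choose (nrm b.out))
    rw [h1, map_zsmul, map_zsmul, map_zsmul, map_zsmul, secZQ_single, secPtQ,
      bcZ_ptCycle X K' _ _ htop, pushZ_bcPt h.isOver K', ← single_out b,
      bcZ_ptCycle B K' _ _ (coordField_nrm b.out)]
    rfl

end sec

end ZF
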